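import Pool.Agent.helper5.BEY.SpecA

set_option autoImplicit false

open Complex MeasureTheory

namespace Pool.Agent.BEY

noncomputable def FCO_c (P : ℝ → ℂ) (k : ℤ) : ℂ :=
  fourierCoeffOn (zero_lt_one : (0 : ℝ) < 1) P k

theorem FCO_int (P : ℝ → ℂ) (k : ℤ) :
    FCO_c P k = ∫ x in (0 : ℝ)..1, Complex.exp (2 * Real.pi * I * (-k : ℤ) * x) * P x := by
  unfold FCO_c
  rw [fourierCoeffOn_eq_integral]
  have h1 : (1 / (1 - 0) : ℝ) = 1 := by norm_num
  rw [h1, one_smul]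
  refine intervalIntegral.integral_congr ?_
  intro x _
  show fourier (-k) (x : AddCircle ((1 : ℝ) - 0)) • P x = _
  rw [fourier_coe_apply, smul_eq_mul]
  have h2 : (2 * (Real.pi : ℂ) * I * ((-k : ℤ) : ℂ) * (x : ℂ) / (((1 : ℝ) - 0 : ℝ) : ℂ))
      = 2 * Real.pi * I * (-k : ℤ) * x := by
    push_cast
    simp
  rw [h2]

theorem FCO_int2 (P : ℝ → ℂ) (k : ℤ) :
    haveI : Fact ((0 : ℝ) < 1) := ⟨one_pos⟩
    fourierCoeff (AddCircle.liftIco (1 : ℝ) 0 P) k = FCO_c P k := by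
  haveI : Fact ((0 : ℝ) < 1) := ⟨one_pos⟩
  rw [FCO_int, fourierCoeff_liftIco_eq, fourierCoeffOn_eq_integral]
  have h1 : (1 / (0 + 1 - 0) : ℝ) = 1 := by norm_num
  rw [h1, one_smul]
  have h0 : (0 + 1 : ℝ) = 1 := by norm_num
  have h3 : (∫ x in (0 : ℝ)..(0 + 1), fourier (-k) (x : AddCircle ((0 + 1 : ℝ) - 0)) • P x)
      = ∫ x in (0 : ℝ)..(0 + 1), Complex.exp (2 * Real.pi * I * (-k : ℤ) * x) * P x := by
    refine intervalIntegral.integral_congr ?_
    intro x _
    show fourier (-k) (x : AddCircle ((0 + 1 : ℝ) - 0)) • P x = _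
    rw [fourier_coe_apply, smul_eq_mul]
    have h2 : (2 * (Real.pi : ℂ) * I * ((-k : ℤ) : ℂ) * (x : ℂ) / (((0 + 1 : ℝ) - 0 : ℝ) : ℂ))
        = 2 * Real.pi * I * (-k : ℤ) * x := by
      push_cast
      simp
    rw [h2]
  rw [h3]
  have h4 : (∫ x in (0 : ℝ)..(0 + 1), Complex.exp (2 * Real.pi * I * (-k : ℤ) * x) * P x)
      = ∫ x in (0 : ℝ)..1, Complex.exp (2 * Real.pi * I * (-k : ℤ) * x) * P x := by
    rw [h0]
  exact h4

theorem FCO_memLp (P : ℝ → ℂ) (hP : Continuous P) :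
    MemLp P 2 (volume.restrict (Set.Ioc (0 : ℝ) 1)) := by
  obtain ⟨C, hC⟩ := isCompact_Icc.exists_bound_of_continuousOn (s := Set.Icc (0 : ℝ) 1)
    hP.continuousOn
  refine MemLp.of_bound hP.aestronglyMeasurable C ?_
  refine (ae_restrict_iff' measurableSet_Ioc).2 (Filter.Eventually.of_forall ?_)
  intro x hx
  exact hC x ⟨hx.1.le, hx.2⟩

theorem FCO_pars (P : ℝ → ℂ) (hP : Continuous P) :
    HasSum (fun k : ℤ => ‖FCO_c P k‖ ^ 2) (∫ x in (0 : ℝ)..1, ‖P x‖ ^ 2) := by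
  have h := hasSum_sq_fourierCoeffOn (zero_lt_one : (0 : ℝ) < 1) (FCO_memLp P hP)
  have h1 : ((1 - 0 : ℝ))⁻¹ • (∫ x in (0 : ℝ)..1, ‖P x‖ ^ 2) = ∫ x in (0 : ℝ)..1, ‖P x‖ ^ 2 := by
    norm_num
  rw [h1] at h
  exact h

theorem FCO_der (P P' : ℝ → ℂ) (hd : ∀ x, HasDerivAt P (P' x) x) (hP' : Continuous P')
    (h01 : P 0 = P 1) (k : ℤ) (hk : k ≠ 0) :
    FCO_c P' k = 2 * Real.pi * I * k * FCO_c P k := by
  have h := fourierCoeffOn_of_hasDerivAt (zero_lt_one : (0 : ℝ) < 1) (f := P) (f' := P') hk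
    (fun x _ => hd x) (hP'.intervalIntegrable _ _)
  rw [h01, sub_self, mul_zero, zero_sub] at h
  unfold FCO_c
  rw [h]
  have hk' : (k : ℂ) ≠ 0 := by exact_mod_cast hk
  have hpi : (Real.pi : ℂ) ≠ 0 := by exact_mod_cast Real.pi_ne_zero
  have hI : (I : ℂ) ≠ 0 := I_ne_zero
  push_cast
  field_simp
  ring

theorem FCO_geo (h : ℕ) (hh : 1 ≤ h) (k : ℤ) :
    ∑ a ∈ Finset.range h, Complex.exp (2 * Real.pi * I * k * ((a : ℝ) / h : ℝ))
      = if (h : ℤ) ∣ k then (h : ℂ) else 0 := by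
  have hh0 : (h : ℂ) ≠ 0 := by
    have : h ≠ 0 := by omega
    exact_mod_cast this
  have e1 : ∀ a : ℕ, Complex.exp (2 * Real.pi * I * k * ((a : ℝ) / h : ℝ))
      = (Complex.exp (2 * Real.pi * I * k / h)) ^ a := by
    intro a
    rw [← Complex.exp_nat_mul]
    push_cast
    rw [show (2 * (Real.pi : ℂ) * I * k * (a / h) : ℂ) = a * (2 * Real.pi * I * k / h) by ring]
  rw [Finset.sum_congr rfl (fun a _ => e1 a)]
  split_ifs with hd
  · obtain ⟨j, rfl⟩ := hd
    have e2 : Complex.exp (2 * Real.pi * I * ((h * j : ℤ) : ℂ) / h) = 1 := by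
      rw [Complex.exp_eq_one_iff]
      refine ⟨j, ?_⟩
      push_cast
      field_simp
    rw [e2]
    simp
  · have e3 : Complex.exp (2 * Real.pi * I * (k : ℂ) / h) ≠ 1 := by
      intro he
      rw [Complex.exp_eq_one_iff] at he
      obtain ⟨n, hn⟩ := he
      apply hd
      refine ⟨n, ?_⟩
      have hpi : (2 * (Real.pi : ℂ) * I) ≠ 0 := Complex.two_pi_I_ne_zero
      have h5 : (k : ℂ) = h * n := by
        have h6 : (2 * (Real.pi : ℂ) * I) * (k : ℂ) = (2 * Real.pi * I) * (h * n) := by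
          have h7 : (2 * (Real.pi : ℂ) * I * k / h) * h = (n * (2 * Real.pi * I)) * h := by rw [hn]
          rw [div_mul_cancel₀ _ hh0] at h7
          rw [h7]
          ring
        exact mul_left_cancel₀ hpi h6
      exact_mod_cast h5
    have e4 : (Complex.exp (2 * Real.pi * I * (k : ℂ) / h)) ^ h = 1 := by
      rw [← Complex.exp_nat_mul, Complex.exp_eq_one_iff]
      refine ⟨k, ?_⟩
      field_simp
    rw [geom_sum_eq e3, e4, sub_self, zero_div]

theorem FCO : FCO_stmt := by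
  intro P P' hd hP' h01
  have hP : Continuous P := continuous_iff_continuousAt.2 fun x => (hd x).continuousAt
  have hS := FCO_pars P hP
  have hS' := FCO_pars P' hP'
  have hder := FCO_der P P' hd hP' h01
  have hle : ∀ k : ℤ, (2 * Real.pi * k) ^ 2 * ‖FCO_c P k‖ ^ 2 ≤ ‖FCO_c P' k‖ ^ 2 := by
    intro k
    by_cases hk : k = 0
    · subst hk
      simp
    · rw [hder k hk]
      have e : ‖2 * (Real.pi : ℂ) * I * k * FCO_c P k‖ ^ 2
          = (2 * Real.pi * k) ^ 2 * ‖FCO_c P k‖ ^ 2 := by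
        have e0 : ‖2 * (Real.pi : ℂ) * I * k * FCO_c P k‖
            = (2 * Real.pi * |(k : ℝ)|) * ‖FCO_c P k‖ := by
          rw [norm_mul, norm_mul, norm_mul, norm_mul, Complex.norm_I, mul_one]
          have e1 : ‖(k : ℂ)‖ = |(k : ℝ)| := by
            rw [show (k : ℂ) = ((k : ℝ) : ℂ) by push_cast; rfl, Complex.norm_real, Real.norm_eq_abs]
          have e2 : ‖(Real.pi : ℂ)‖ = Real.pi := by
            rw [Complex.norm_real, Real.norm_eq_abs, abs_of_pos Real.pi_pos]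
          have e3 : ‖(2 : ℂ)‖ = 2 := by norm_num
          rw [e1, e2, e3]
        rw [e0, mul_pow, mul_pow, sq_abs, ← mul_pow]
      exact e.ge
  have hsum2 : Summable (fun k : ℤ => (2 * Real.pi * k) ^ 2 * ‖FCO_c P k‖ ^ 2) :=
    Summable.of_nonneg_of_le (fun k => by positivity) hle hS'.summable
  have hsq : Summable (fun n : ℤ => 1 / (n : ℝ) ^ 2) :=
    Real.summable_one_div_int_pow.2 (by norm_num)
  have hsum : Summable (fun k : ℤ => ‖FCO_c P k‖) := by
    have hb : ∀ k : ℤ, k ≠ 0 → ‖FCO_c P k‖ ≤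
        (2 * Real.pi * k) ^ 2 * ‖FCO_c P k‖ ^ 2 + 1 / (k : ℝ) ^ 2 := by
      intro k hk
      have hk1 : (1 : ℝ) ≤ (k : ℝ) ^ 2 := by
        have h1 : (1 : ℤ) ≤ k ^ 2 := by
          have := sq_nonneg k
          have h2 : k ^ 2 ≠ 0 := pow_ne_zero 2 hk
          omega
        exact_mod_cast h1
      have hk0 : (0 : ℝ) < (k : ℝ) ^ 2 := by linarith
      have hpi : (1 : ℝ) ≤ 2 * Real.pi := by
        have := Real.pi_gt_three
        linarith
      set u := ‖FCO_c P k‖ with hu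
      have hu0 : 0 ≤ u := norm_nonneg _
      have h3 : (k : ℝ) ^ 2 * u ^ 2 ≤ (2 * Real.pi * k) ^ 2 * u ^ 2 := by
        have h4 : (k : ℝ) ^ 2 ≤ (2 * Real.pi * k) ^ 2 := by
          rw [mul_pow]
          have h5 : (1 : ℝ) ≤ (2 * Real.pi) ^ 2 := one_le_pow₀ hpi
          nlinarith
        exact mul_le_mul_of_nonneg_right h4 (sq_nonneg u)
      have h6 : u ≤ (k : ℝ) ^ 2 * u ^ 2 + 1 / (k : ℝ) ^ 2 := by
        set s := (k : ℝ) ^ 2 with hs
        have h7 : 0 ≤ (s * u - 1 / 2) ^ 2 := sq_nonneg _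
        have h8 : s * u ≤ s * (s * u ^ 2 + 1 / s) := by
          have h9 : s * (s * u ^ 2 + 1 / s) = (s * u) ^ 2 + 1 := by
            field_simp
          rw [h9]
          nlinarith
        exact le_of_mul_le_mul_left h8 hk0
      linarith
    have hb2 : Summable (fun k : ℤ => (2 * Real.pi * k) ^ 2 * ‖FCO_c P k‖ ^ 2 + 1 / (k : ℝ) ^ 2) :=
      hsum2.add hsq
    refine Summable.of_norm_bounded_eventually hb2 ?_
    have : {k : ℤ | k ≠ 0} ∈ Filter.cofinite := by
      rw [Filter.mem_cofinite]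
      have h1 : {k : ℤ | k ≠ 0}ᶜ = {0} := by
        ext k
        simp
      rw [h1]
      exact Set.finite_singleton 0
    filter_upwards [this] with k hk
    rw [Real.norm_eq_abs, abs_of_nonneg (norm_nonneg _)]
    exact hb k hk
  refine ⟨FCO_c P, hsum, ?_, ?_, hS.summable, hS.tsum_eq, hsum2, ?_⟩
  · rw [FCO_int]
    refine intervalIntegral.integral_congr ?_
    intro x _
    simp
  · intro h hh
    haveI : Fact ((0 : ℝ) < 1) := ⟨one_pos⟩
    have hcont : Continuous (AddCircle.liftIco (1 : ℝ) 0 P) :=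
      AddCircle.liftIco_zero_continuous h01 hP.continuousOn
    have hpt := has_pointwise_sum_fourier_series_of_summable
      (f := ⟨AddCircle.liftIco (1 : ℝ) 0 P, hcont⟩) (by
        have : (fourierCoeff (⟨AddCircle.liftIco (1 : ℝ) 0 P, hcont⟩ : C(AddCircle (1 : ℝ), ℂ)))
            = FCO_c P := by
          funext k
          exact FCO_int2 P k
        rw [this]
        exact hsum.of_norm)
    have hpt2 : ∀ a ∈ Finset.range h, HasSum
        (fun k : ℤ => FCO_c P k * Complex.exp (2 * Real.pi * I * k * ((a : ℝ) / h : ℝ)))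
        (P ((a : ℝ) / h)) := by
      intro a ha
      have ha' : (a : ℝ) < h := by exact_mod_cast Finset.mem_range.1 ha
      have hh0 : (0 : ℝ) < h := by exact_mod_cast hh
      have hx : ((a : ℝ) / h) ∈ Set.Ico (0 : ℝ) 1 := by
        refine ⟨by positivity, ?_⟩
        rw [div_lt_one hh0]
        exact ha'
      have h1 := hpt (((a : ℝ) / h : ℝ) : AddCircle (1 : ℝ))
      have h2 : (⟨AddCircle.liftIco (1 : ℝ) 0 P, hcont⟩ : C(AddCircle (1 : ℝ), ℂ))
          (((a : ℝ) / h : ℝ) : AddCircle (1 : ℝ)) = P ((a : ℝ) / h) := by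
        show AddCircle.liftIco (1 : ℝ) 0 P (((a : ℝ) / h : ℝ) : AddCircle (1 : ℝ)) = _
        exact AddCircle.liftIco_zero_coe_apply hx
      rw [h2] at h1
      refine h1.congr_fun ?_ |> id
      intro k
      show _ = fourierCoeff (AddCircle.liftIco (1 : ℝ) 0 P) k • fourier k (((a : ℝ) / h : ℝ) : AddCircle (1 : ℝ))
      rw [FCO_int2, fourier_coe_apply, smul_eq_mul]
      simp
    have hs := hasSum_sum hpt2
    have hs2 : ∀ k : ℤ, ∑ a ∈ Finset.range h,
        FCO_c P k * Complex.exp (2 * Real.pi * I * k * ((a : ℝ) / h : ℝ))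
        = FCO_c P k * (if (h : ℤ) ∣ k then (h : ℂ) else 0) := by
      intro k
      rw [← Finset.mul_sum, FCO_geo h hh k]
    simp_rw [hs2] at hs
    rw [← hs.tsum_eq]
    have hinj : Function.Injective (fun j : ℤ => (h : ℤ) * j) := by
      intro a b hab
      have h0 : (h : ℤ) ≠ 0 := by omega
      exact mul_left_cancel₀ h0 hab
    have hsupp : Function.support (fun k : ℤ => FCO_c P k * (if (h : ℤ) ∣ k then (h : ℂ) else 0))
        ⊆ Set.range (fun j : ℤ => (h : ℤ) * j) := by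
      intro k hk
      by_contra hcon
      apply hk
      have : ¬ (h : ℤ) ∣ k := by
        rintro ⟨j, rfl⟩
        exact hcon ⟨j, rfl⟩
      simp [this]
    rw [← hinj.tsum_eq hsupp, ← tsum_mul_left]
    refine tsum_congr fun j => ?_
    rw [if_pos (Dvd.intro j rfl)]
    ring
  · rw [← hS'.tsum_eq]
    exact hsum2.tsum_le_tsum hle hS'.summable

end Pool.Agent.BEY
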